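import Pool.Agent.T9h80.HY.Sched
import Pool.Agent.T9h45.HY.Prod2
import Pool.Agent.H238R2.HY.Struct

/-!
# Upward labellings of graphs with a dense core and the rest of small degree
-/

set_option autoImplicit false

namespace Pool.Agent.T9h80.HY

open Finset Pool.Agent.T9h45.HY

/-- putting the times together -/
theorem assemble {V : Type} (G : SimpleGraph V) (A : Finset V) (D k : ℕ) (j : V → ℕ)
    (c τ : V → V → ℕ) (f : V → ℕ) (hj1 : ∀ a ∈ A, j a < k)
    (hj2 : ∀ a ∈ A, ∀ b ∈ A, j a = j b → a = b) (hkD : ∀ a ∈ A, k ≤ D + 1)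
    (hc1 : ∀ a ∈ A, ∀ x, x ∉ A → G.Adj a x → j a ≤ c a x ∧ f x ≤ c a x ∧ c a x + k < j a + D + 1)
    (hc2 : ∀ a ∈ A, ∀ x y, x ∉ A → y ∉ A → G.Adj a x → G.Adj a y → c a x = c a y → x = y)
    (hc3 : ∀ a ∈ A, ∀ b ∈ A, ∀ x, x ∉ A → G.Adj a x → G.Adj b x → c a x = c b x → a = b)
    (hτ0 : ∀ x y, τ x y = τ y x)
    (hτ1 : ∀ x y, x ∉ A → y ∉ A → G.Adj x y → f x ≤ τ x y ∧ τ x y ≤ D + f x ∧ f x ≠ f y)
    (hτ2 : ∀ x y z, x ∉ A → y ∉ A → z ∉ A → G.Adj x y → G.Adj x z → τ x y = τ x z → y = z)
    (hτ3 : ∀ a ∈ A, ∀ x y, x ∉ A → y ∉ A → G.Adj a x → G.Adj x y → τ x y ≠ c a x) : Up G D := by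
  classical
  let F : V → ℕ := fun v => if v ∈ A then j v else k + f v
  let E : V → V → ℕ := fun u v =>
    if u ∈ A then (if v ∈ A then j u + j v else k + c u v)
    else (if v ∈ A then k + c v u else k + τ u v)
  have F1 : ∀ v, v ∈ A → F v = j v := fun v h => if_pos h
  have F2 : ∀ v, v ∉ A → F v = k + f v := fun v h => if_neg h
  have E1 : ∀ u v, u ∈ A → v ∈ A → E u v = j u + j v := fun u v hu hv => by
    simp only [E, if_pos hu, if_pos hv]
  have E2 : ∀ u v, u ∈ A → v ∉ A → E u v = k + c u v := fun u v hu hv => by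
    simp only [E, if_pos hu, if_neg hv]
  have E3 : ∀ u v, u ∉ A → v ∈ A → E u v = k + c v u := fun u v hu hv => by
    simp only [E, if_neg hu, if_pos hv]
  have E4 : ∀ u v, u ∉ A → v ∉ A → E u v = k + τ u v := fun u v hu hv => by
    simp only [E, if_neg hu, if_neg hv]
  have Esymm : ∀ u v, E u v = E v u := by
    intro u v
    by_cases hu : u ∈ A <;> by_cases hv : v ∈ A
    · rw [E1 u v hu hv, E1 v u hv hu, add_comm]
    · rw [E2 u v hu hv, E3 v u hv hu]
    · rw [E3 u v hu hv, E2 v u hv hu]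
    · rw [E4 u v hu hv, E4 v u hv hu, hτ0]
  have hwin : ∀ u v, G.Adj u v → F u ≠ F v ∧ F u ≤ E u v ∧ E u v ≤ F u + D := by
    intro u v huv
    by_cases hu : u ∈ A <;> by_cases hv : v ∈ A
    · rw [E1 u v hu hv, F1 u hu, F1 v hv]
      have h1 := hj1 v hv
      have h2 := hkD u hu
      refine ⟨fun h => G.ne_of_adj huv (hj2 u hu v hv h), by omega, by omega⟩
    · rw [E2 u v hu hv, F1 u hu, F2 v hv]
      have h1 := hj1 u hu
      obtain ⟨h2, h3, h4⟩ := hc1 u hu v hv huv
      refine ⟨by omega, by omega, by omega⟩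
    · rw [E3 u v hu hv, F1 v hv, F2 u hu]
      have h1 := hj1 v hv
      obtain ⟨h2, h3, h4⟩ := hc1 v hv u hu huv.symm
      refine ⟨by omega, by omega, by omega⟩
    · rw [E4 u v hu hv, F2 u hu, F2 v hv]
      obtain ⟨h2, h3, h4⟩ := hτ1 u v hu hv huv
      refine ⟨by omega, by omega, by omega⟩
  have hinj : ∀ u v w, G.Adj u v → G.Adj u w → E u v = E u w → v = w := by
    intro u v w huv huw h
    by_cases hu : u ∈ A
    · have hju := hj1 u hu
      by_cases hv : v ∈ A <;> by_cases hw : w ∈ A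
      · rw [E1 u v hu hv, E1 u w hu hw] at h
        exact hj2 v hv w hw (by omega)
      · rw [E1 u v hu hv, E2 u w hu hw] at h
        have h1 := hj1 v hv
        have h2 := (hc1 u hu w hw huw).1
        omega
      · rw [E2 u v hu hv, E1 u w hu hw] at h
        have h1 := hj1 w hw
        have h2 := (hc1 u hu v hv huv).1
        omega
      · rw [E2 u v hu hv, E2 u w hu hw] at h
        exact hc2 u hu v w hv hw huv huw (by omega)
    · by_cases hv : v ∈ A <;> by_cases hw : w ∈ A
      · rw [E3 u v hu hv, E3 u w hu hw] at h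
        exact hc3 v hv w hw u hu huv.symm huw.symm (by omega)
      · rw [E3 u v hu hv, E4 u w hu hw] at h
        exact absurd (by omega) (hτ3 v hv u w hu hw huv.symm huw)
      · rw [E4 u v hu hv, E3 u w hu hw] at h
        exact absurd (by omega) (hτ3 w hw u v hu hv huw.symm huv)
      · rw [E4 u v hu hv, E4 u w hu hw] at h
        exact hτ2 u v w hu hv hw huv huw (by omega)
  refine ⟨fun v => (F v : ℤ), fun u v => (E u v : ℤ), fun u v => by
    beta_reduce; rw [Esymm], ?_, ?_⟩
  · intro u v huv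
    obtain ⟨h1, h2, h3⟩ := hwin u v huv
    beta_reduce
    exact ⟨by exact_mod_cast h1, by exact_mod_cast h2, by exact_mod_cast h3⟩
  · intro u v w huv huw h
    beta_reduce at h
    exact hinj u v w huv huw (by exact_mod_cast h)

/-- choosing representatives that are pairwise far apart -/
theorem select {P V : Type} [Fintype P] [Fintype V] (N : P → Finset V) (C : V → V → Prop)
    (hC : ∀ v w, C v w → C w v) (m : ℕ) (hm : ∀ v, {w | C v w}.ncard ≤ m)
    (hN : ∀ p, Fintype.card P * m < (N p).card) :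
    ∃ x : P → V, (∀ p, x p ∈ N p) ∧ ∀ p q, p ≠ q → ¬ C (x p) (x q) := by
  classical
  have key : ∀ S : Finset P, ∃ x : P → V, (∀ p ∈ S, x p ∈ N p) ∧
      ∀ p ∈ S, ∀ q ∈ S, p ≠ q → ¬ C (x p) (x q) := by
    intro S
    induction S using Finset.induction_on with
    | empty =>
      by_cases hP : Nonempty P
      · obtain ⟨p⟩ := hP
        have h1 := hN p
        obtain ⟨v, -⟩ : (N p).Nonempty := card_pos.1 (by omega)
        exact ⟨fun _ => v, by simp, by simp⟩
      · exact ⟨fun p => absurd ⟨p⟩ hP, by simp, by simp⟩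
    | insert p S hp ih =>
      obtain ⟨x, h1, h2⟩ := ih
      have hcard : (S.biUnion fun q => univ.filter fun w => C (x q) w).card < (N p).card := by
        refine lt_of_le_of_lt (card_biUnion_le_card_mul _ _ m ?_) ?_
        · intro q _
          refine le_trans (le_of_eq ?_) (hm (x q))
          rw [← Set.ncard_coe_finset]
          congr 1
          ext w
          simp
        · exact lt_of_le_of_lt (Nat.mul_le_mul_right _ (card_le_univ S)) (hN p)
      obtain ⟨v, hv1, hv2⟩ := exists_mem_notMem_of_card_lt_card hcard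
      have hv3 : ∀ q ∈ S, ¬ C (x q) v := by
        intro q hq h
        exact hv2 (mem_biUnion.2 ⟨q, hq, by simp [h]⟩)
      refine ⟨Function.update x p v, ?_, ?_⟩
      · intro q hq
        by_cases hqp : q = p
        · subst hqp; rw [Function.update_self]; exact hv1
        · rw [Function.update_of_ne hqp]
          exact h1 q ((mem_insert.1 hq).resolve_left hqp)
      · intro q hq q' hq' hne
        by_cases hqp : q = p
        · subst hqp
          have hq'p : q' ≠ q := fun h => hne h.symm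
          rw [Function.update_self, Function.update_of_ne hq'p]
          exact fun h => hv3 q' ((mem_insert.1 hq').resolve_left hq'p) (hC _ _ h)
        · by_cases hq'p : q' = p
          · subst hq'p
            rw [Function.update_self, Function.update_of_ne hqp]
            exact hv3 q ((mem_insert.1 hq).resolve_left hqp)
          · rw [Function.update_of_ne hqp, Function.update_of_ne hq'p]
            exact h2 q ((mem_insert.1 hq).resolve_left hqp) q'
              ((mem_insert.1 hq').resolve_left hq'p) hne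
  obtain ⟨x, h1, h2⟩ := key univ
  exact ⟨x, fun p => h1 p (mem_univ _), fun p q => h2 p (mem_univ _) q (mem_univ _)⟩

/-- the vertices at distance at most two -/
theorem near_card {V : Type} [Fintype V] (Γ : SimpleGraph V) (r : ℕ)
    (hr : ∀ v, {w | Γ.Adj v w}.ncard ≤ r) (v : V) :
    {w | v = w ∨ Γ.Adj v w ∨ ∃ u, Γ.Adj v u ∧ Γ.Adj u w}.ncard ≤ 1 + r + r * r := by
  classical
  have hr' : ∀ v, (univ.filter fun w => Γ.Adj v w).card ≤ r := by
    intro v
    refine le_trans (le_of_eq ?_) (hr v)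
    rw [← Set.ncard_coe_finset]
    congr 1
    ext w
    simp
  have h1 : {w | v = w ∨ Γ.Adj v w ∨ ∃ u, Γ.Adj v u ∧ Γ.Adj u w} =
      ((({v} : Finset V) ∪ (univ.filter fun w => Γ.Adj v w) ∪
        ((univ.filter fun w => Γ.Adj v w).biUnion fun u => univ.filter fun w => Γ.Adj u w) :
          Finset V) : Set V) := by
    ext w
    simp only [Set.mem_ofPred_eq, coe_union, coe_singleton, coe_filter, mem_univ, true_and,
      coe_biUnion, Set.mem_union, Set.mem_singleton_iff, Set.mem_iUnion, exists_prop]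
    constructor
    · rintro (h | h | h)
      · exact Or.inl (Or.inl h.symm)
      · exact Or.inl (Or.inr h)
      · exact Or.inr h
    · rintro ((h | h) | h)
      · exact Or.inl h.symm
      · exact Or.inr (Or.inl h)
      · exact Or.inr (Or.inr h)
  rw [h1, Set.ncard_coe_finset]
  refine (card_union_le _ _).trans (Nat.add_le_add ((card_union_le _ _).trans
    (Nat.add_le_add (by simp) (hr' v))) ?_)
  refine (card_biUnion_le_card_mul _ _ r fun u _ => hr' u).trans ?_
  exact Nat.mul_le_mul_right _ (hr' v)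

/-- numbering of a finite set with a subset first -/
theorem numbering {V : Type} (A : Finset V) (p : V → Prop) [DecidablePred p] :
    ∃ j : V → ℕ, (∀ a ∈ A, j a < A.card) ∧ (∀ a ∈ A, ∀ b ∈ A, j a = j b → a = b) ∧
      ∀ a ∈ A, j a < (A.filter p).card → p a := by
  classical
  set B := A.filter p with hB
  set B' := A.filter fun a => ¬ p a with hB'
  have hc : B.card + B'.card = A.card := card_filter_add_card_filter_not (s := A) p
  let j : V → ℕ := fun a => if h : a ∈ B then (B.equivFin ⟨a, h⟩ : ℕ) else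
    if h : a ∈ B' then B.card + (B'.equivFin ⟨a, h⟩ : ℕ) else 0
  have j1 : ∀ a (h : a ∈ B), j a = (B.equivFin ⟨a, h⟩ : ℕ) := fun a h => dif_pos h
  have hd : ∀ a, a ∈ B' → a ∉ B := fun a h h' => (mem_filter.1 h).2 (mem_filter.1 h').2
  have j2 : ∀ a (h : a ∈ B'), j a = B.card + (B'.equivFin ⟨a, h⟩ : ℕ) := by
    intro a h
    have h1 : j a = if h : a ∈ B' then B.card + (B'.equivFin ⟨a, h⟩ : ℕ) else 0 :=
      dif_neg (hd a h)
    rw [h1, dif_pos h]
  have hA : ∀ a ∈ A, a ∈ B ∨ a ∈ B' := by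
    intro a ha
    by_cases h : p a
    · exact Or.inl (mem_filter.2 ⟨ha, h⟩)
    · exact Or.inr (mem_filter.2 ⟨ha, h⟩)
  refine ⟨j, ?_, ?_, ?_⟩
  · intro a ha
    rcases hA a ha with h | h
    · rw [j1 a h]
      have := (B.equivFin ⟨a, h⟩).2
      omega
    · rw [j2 a h]
      have := (B'.equivFin ⟨a, h⟩).2
      omega
  · intro a ha b hb hab
    rcases hA a ha with h | h <;> rcases hA b hb with h' | h'
    · rw [j1 a h, j1 b h'] at hab
      exact congrArg Subtype.val (B.equivFin.injective (Fin.ext hab))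
    · rw [j1 a h, j2 b h'] at hab
      have := (B.equivFin ⟨a, h⟩).2
      omega
    · rw [j2 a h, j1 b h'] at hab
      have := (B.equivFin ⟨b, h'⟩).2
      omega
    · rw [j2 a h, j2 b h'] at hab
      have h5 : (B'.equivFin ⟨a, h⟩ : ℕ) = (B'.equivFin ⟨b, h'⟩ : ℕ) := by omega
      exact congrArg Subtype.val (B'.equivFin.injective (Fin.ext h5))
  · intro a ha hlt
    rcases hA a ha with h | h
    · exact (mem_filter.1 h).2
    · rw [j2 a h] at hlt
      omega

/-- a dense core `A`, the rest has maximum degree at most `r`; at least `2 (r + 1) - q` vertices of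
`A` have at most `D + 1 - |A| - 2 (r + 1)` neighbours outside `A` -/
theorem up_core {V : Type} [Fintype V] (G : SimpleGraph V) (A : Finset V) (D r q : ℕ)
    (hA : ∀ a ∈ A, A.card + {x | x ∉ A ∧ G.Adj a x}.ncard ≤ D + 1)
    (hB : ∀ x, x ∉ A → {y | y ∉ A ∧ G.Adj x y}.ncard ≤ r)
    (hq : 2 * (r + 1) ≤
      {a | a ∈ A ∧ A.card + {x | x ∉ A ∧ G.Adj a x}.ncard + 2 * (r + 1) ≤ D + 1}.ncard + q)
    (hD : A.card + 2 * (r + 1) + q ^ 2 * (r ^ 2 + r + 1) ≤ D + 1) : Up G D := by
  classical
  set k := A.card with hk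
  -- numbering of `A`
  obtain ⟨j, hj1, hj2, hj3⟩ := numbering A
    (fun a => k + {x | x ∉ A ∧ G.Adj a x}.ncard + 2 * (r + 1) ≤ D + 1)
  rw [← hk] at hj1
  have hq' : {a | a ∈ A ∧ k + {x | x ∉ A ∧ G.Adj a x}.ncard + 2 * (r + 1) ≤ D + 1}.ncard =
      (A.filter fun a => k + {x | x ∉ A ∧ G.Adj a x}.ncard + 2 * (r + 1) ≤ D + 1).card := by
    rw [← Set.ncard_coe_finset]
    congr 1
    ext a
    simp
  rw [hq'] at hq
  -- the rest
  let Γ : SimpleGraph V :=
    { Adj := fun x y => x ∉ A ∧ y ∉ A ∧ G.Adj x y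
      symm := ⟨fun x y h => ⟨h.2.1, h.1, h.2.2.symm⟩⟩
      loopless := ⟨fun x h => G.loopless.irrefl x h.2.2⟩ }
  have hΓ : ∀ x y, Γ.Adj x y ↔ x ∉ A ∧ y ∉ A ∧ G.Adj x y := fun x y => Iff.rfl
  have hr : ∀ v, {w | Γ.Adj v w}.ncard ≤ r := by
    intro v
    by_cases hv : v ∈ A
    · have : {w | Γ.Adj v w} = ∅ := by
        ext w
        simp [hΓ, hv]
      rw [this, Set.ncard_empty]
      exact Nat.zero_le _
    · refine le_trans (le_of_eq ?_) (hB v hv)
      congr 1
      ext w
      simp [hΓ, hv]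
  have hdeg : ∀ v, Γ.degree v ≤ r := by
    intro v
    refine le_trans (le_of_eq ?_) (hr v)
    rw [← SimpleGraph.card_neighborFinset_eq_degree, ← Set.ncard_coe_finset]
    congr 1
    ext w
    simp
  obtain ⟨g, hg1, hg2⟩ := Pool.Agent.H238R2.HY.greedy Γ r hdeg
  obtain ⟨μ, hμ0, hμ1, hμ2⟩ := Pool.Agent.H238R2.HY.vizing Γ r hdeg
  set w := r + 1 with hw
  set L := 2 * w with hL
  obtain ⟨t, ht⟩ : ∃ t, t + k = D + 1 := ⟨D + 1 - k, by omega⟩
  have htL : L + q ^ 2 * (r ^ 2 + r + 1) ≤ t := by omega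
  -- the neighbours outside `A`
  let R : V → Finset V := fun a => univ.filter fun x => x ∉ A ∧ G.Adj a x
  have hRm : ∀ a x, x ∈ R a ↔ x ∉ A ∧ G.Adj a x := by
    intro a x
    simp [R]
  have hR : ∀ a ∈ A, (R a).card ≤ t := by
    intro a ha
    have h1 := hA a ha
    have h2 : {x | x ∉ A ∧ G.Adj a x}.ncard = (R a).card := by
      rw [← Set.ncard_coe_finset]
      congr 1
      ext x
      simp [R]
    omega
  have hRc : ∀ a, {x | x ∉ A ∧ G.Adj a x}.ncard = (R a).card := by
    intro a
    rw [← Set.ncard_coe_finset]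
    congr 1
    ext x
    simp [R]
  -- the first vertices are not busy
  have hfirst : ∀ a ∈ A, j a < L - q → (R a).card + L ≤ t := by
    intro a ha hja
    have h1 := hj3 a ha (by omega)
    rw [hRc a] at h1
    omega
  -- the special pairs
  let P := {p : Fin L × Fin L // (p.1 : ℕ) ≤ p.2 ∧ L - q ≤ (p.1 : ℕ) ∧
    ∃ a ∈ A, j a = p.1 ∧ t < (R a).card + L}
  have hPc : Fintype.card P ≤ q ^ 2 := by
    have h1 : ∀ i : Fin L, (i : ℕ) - (L - q) < q ∨ q = 0 := by
      intro i
      have := i.2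
      omega
    rcases Nat.eq_zero_or_pos q with hq0 | hq0
    · have : IsEmpty P := ⟨fun p => by
        have h2 := p.2.2.1
        have h3 := p.1.1.2
        omega⟩
      rw [Fintype.card_eq_zero]
      exact Nat.zero_le _
    · have h2 : ∀ i : Fin L, (i : ℕ) - (L - q) < q := fun i => (h1 i).resolve_right (by omega)
      refine (Fintype.card_le_of_injective (fun p : P =>
        ((⟨_, h2 p.1.1⟩ : Fin q), (⟨_, h2 p.1.2⟩ : Fin q))) ?_).trans ?_
      · intro p p' h
        have h3 := congrArg (fun z : Fin q × Fin q => (z.1 : ℕ)) h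
        have h4 := congrArg (fun z : Fin q × Fin q => (z.2 : ℕ)) h
        simp only at h3 h4
        have e1 := p.2.1
        have e2 := p.2.2.1
        have e3 := p'.2.1
        have e4 := p'.2.2.1
        apply Subtype.ext
        apply Prod.ext
        · apply Fin.ext
          omega
        · apply Fin.ext
          omega
      · rw [Fintype.card_prod, Fintype.card_fin]
        apply le_of_eq
        ring
  choose av hav1 hav2 hav3 using fun p : P => p.2.2.2
  let C : V → V → Prop := fun v w => v = w ∨ Γ.Adj v w ∨ ∃ u, Γ.Adj v u ∧ Γ.Adj u w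
  have hC : ∀ v w, C v w → C w v := by
    rintro v w (h | h | ⟨u, h1, h2⟩)
    · exact Or.inl h.symm
    · exact Or.inr (Or.inl h.symm)
    · exact Or.inr (Or.inr ⟨u, h2.symm, h1.symm⟩)
  have hCm : ∀ v, {w | C v w}.ncard ≤ r ^ 2 + r + 1 := by
    intro v
    refine (near_card Γ r hr v).trans (le_of_eq ?_)
    ring
  obtain ⟨xv, hx1, hx2⟩ := select (P := P) (fun p => R (av p)) C hC (r ^ 2 + r + 1) hCm (by
    intro p
    have h1 := hav3 p
    have h2 : Fintype.card P * (r ^ 2 + r + 1) ≤ q ^ 2 * (r ^ 2 + r + 1) :=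
      Nat.mul_le_mul_right _ hPc
    omega)
  have hxinj : ∀ p q, xv p = xv q → p = q := by
    intro p q h
    by_contra hne
    exact hx2 p q hne (Or.inl h)
  have hxA : ∀ p, xv p ∉ A := fun p => ((hRm _ _).1 (hx1 p)).1
  let sp : V → V → Prop := fun a x => ∃ p : P, av p = a ∧ xv p = x
  -- the remaining jobs
  let R' : {a // a ∈ A} → Finset V := fun a => (R a.1).filter fun x => ¬ sp a.1 x
  have hR'm : ∀ (a : {a // a ∈ A}) x, x ∉ A → G.Adj a.1 x → ¬ sp a.1 x → x ∈ R' a := by
    intro a x hx hax hs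
    exact mem_filter.2 ⟨(hRm _ _).2 ⟨hx, hax⟩, hs⟩
  have hR' : ∀ a : {a // a ∈ A}, L + (R' a).card ≤ j a.1 + t ∧ (R' a).card ≤ t := by
    intro a
    have h1 : (R' a).card ≤ (R a.1).card := card_le_card (filter_subset _ _)
    have h2 := hR a.1 a.2
    refine ⟨?_, by omega⟩
    by_cases hbusy : t < (R a.1).card + L
    · by_cases hjL : j a.1 < L
      · have h3 : ∀ e, j a.1 ≤ e → e < L → ∃ p : P, av p = a.1 ∧ ((p.1.2 : Fin L) : ℕ) = e := by
          intro e he1 he2
          have hge : L - q ≤ j a.1 := by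
            by_contra hlt
            have := hfirst a.1 a.2 (by omega)
            omega
          refine ⟨⟨(⟨j a.1, hjL⟩, ⟨e, he2⟩), he1, hge, a.1, a.2, rfl, hbusy⟩, ?_, rfl⟩
          exact hj2 _ (hav1 _) _ a.2 (hav2 _)
        choose φ hφ1 hφ2 using h3
        have h4 : (Ico (j a.1) L).card ≤ ((R a.1) \ (R' a)).card := by
          refine card_le_card_of_injOn
            (fun e => if h : j a.1 ≤ e ∧ e < L then xv (φ e h.1 h.2) else a.1) ?_ ?_
          · intro e he
            rw [coe_Ico, Set.mem_Ico] at he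
            simp only [dif_pos he, coe_sdiff, Set.mem_sdiff, mem_coe]
            constructor
            · have := hx1 (φ e he.1 he.2)
              rwa [hφ1 e he.1 he.2] at this
            · intro h
              exact (mem_filter.1 h).2 ⟨φ e he.1 he.2, hφ1 e he.1 he.2, rfl⟩
          · intro e he e' he' hee
            rw [coe_Ico, Set.mem_Ico] at he he'
            simp only [dif_pos he, dif_pos he'] at hee
            have h5 := hxinj _ _ hee
            rw [← hφ2 e he.1 he.2, ← hφ2 e' he'.1 he'.2, h5]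
        rw [Nat.card_Ico] at h4
        have h5 := card_sdiff_add_card_eq_card (filter_subset (fun x => ¬ sp a.1 x) (R a.1))
        have h6 : ((R a.1).filter fun x => ¬ sp a.1 x) = R' a := rfl
        rw [h6] at h5
        omega
      · omega
    · omega
  let s : {a // a ∈ A} → ℕ := fun a => j a.1 + t - (R' a).card
  have hs : ∀ a, s a + (R' a).card = j a.1 + t := by
    intro a
    have := (hR' a).2
    simp only [s]
    omega
  obtain ⟨c', hc1, hc2, hc3⟩ := sched _ s R' rfl (by
    intro a b _ _ h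
    rw [hs, hs] at h
    exact Subtype.ext (hj2 _ a.2 _ b.2 (by omega)))
  let c : V → V → ℕ := fun a x =>
    if h : sp a x then ((h.choose.1.2 : Fin L) : ℕ) else if h : a ∈ A then c' ⟨a, h⟩ x else 0
  have hcS : ∀ p : P, c (av p) (xv p) = ((p.1.2 : Fin L) : ℕ) := by
    intro p
    have h : sp (av p) (xv p) := ⟨p, rfl, rfl⟩
    have h1 : c (av p) (xv p) = ((h.choose.1.2 : Fin L) : ℕ) := dif_pos h
    rw [h1, hxinj _ _ h.choose_spec.2]
  have hcN : ∀ a x (h : a ∈ A), ¬ sp a x → c a x = c' ⟨a, h⟩ x := by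
    intro a x h hs
    have h1 : c a x = if h : a ∈ A then c' ⟨a, h⟩ x else 0 := dif_neg hs
    rw [h1, dif_pos h]
  have hlate : ∀ a ∈ A, ∀ x, x ∉ A → G.Adj a x → ¬ sp a x →
      L ≤ c a x ∧ j a ≤ c a x ∧ c a x < j a + t := by
    intro a ha x hx hax hsp
    rw [hcN a x ha hsp]
    have h1 := hc1 ⟨a, ha⟩ x (hR'm ⟨a, ha⟩ x hx hax hsp)
    have h2 := hR' ⟨a, ha⟩
    have h3 := hs ⟨a, ha⟩
    simp only at h2 h3
    refine ⟨by omega, by omega, by omega⟩
  have hearly : ∀ p : P, c (av p) (xv p) < L ∧ j (av p) ≤ c (av p) (xv p) := by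
    intro p
    rw [hcS]
    refine ⟨p.1.2.2, ?_⟩
    rw [hav2]
    exact p.2.1
  let S : V → Prop := fun x => ∃ p : P, xv p = x
  let f : V → ℕ := fun x => if S x then 0 else 1 + g x
  have hf1 : ∀ x, f x ≤ w := by
    intro x
    have := hg1 x
    simp only [f]
    split_ifs <;> omega
  have hf2 : ∀ x, S x → f x = 0 := fun x h => if_pos h
  have hf3 : ∀ x, ¬ S x → f x = 1 + g x := fun x h => if_neg h
  let Dr : V → V → Prop := fun x y => ∃ p : P, w ≤ ((p.1.2 : Fin L) : ℕ) ∧ (xv p = x ∨ xv p = y) ∧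
    w + μ x y = ((p.1.2 : Fin L) : ℕ)
  have hDr : ∀ x y, Dr x y ↔ Dr y x := by
    intro x y
    constructor
    · rintro ⟨p, h1, h2, h3⟩
      exact ⟨p, h1, h2.symm, by rw [hμ0 y x]; exact h3⟩
    · rintro ⟨p, h1, h2, h3⟩
      exact ⟨p, h1, h2.symm, by rw [hμ0 x y]; exact h3⟩
  let τ : V → V → ℕ := fun x y => if Dr x y then D else w + μ x y
  have hτD : ∀ x y, Dr x y → τ x y = D := fun x y h => if_pos h
  have hτN : ∀ x y, ¬ Dr x y → τ x y = w + μ x y := fun x y h => if_neg h
  have hcD : ∀ a ∈ A, ∀ x, x ∉ A → G.Adj a x → c a x < D := by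
    intro a ha x hx hax
    have h0 := hj1 a ha
    by_cases hsp : sp a x
    · obtain ⟨p, rfl, rfl⟩ := hsp
      have h1 := (hearly p).1
      omega
    · have h1 := (hlate a ha x hx hax hsp).2.2
      omega
  refine assemble G A D k j c τ f hj1 hj2 (fun a ha => by have := hA a ha; omega) ?_ ?_ ?_ ?_ ?_ ?_ ?_
  · -- windows of the cross edges
    intro a ha x hx hax
    by_cases hsp : sp a x
    · obtain ⟨p, rfl, rfl⟩ := hsp
      have h1 := hearly p
      have h2 := hf2 (xv p) ⟨p, rfl⟩
      refine ⟨h1.2, by omega, by omega⟩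
    · have h1 := hlate a ha x hx hax hsp
      have h2 := hf1 x
      refine ⟨h1.2.1, by omega, by omega⟩
  · -- distinct at `a`
    intro a ha x y hx hy hax hay h
    by_cases hsp : sp a x <;> by_cases hsp' : sp a y
    · obtain ⟨p, rfl, rfl⟩ := hsp
      obtain ⟨q, hq, rfl⟩ := hsp'
      rw [hcS, ← hq, hcS] at h
      have h1 : p = q := by
        apply Subtype.ext
        apply Prod.ext
        · apply Fin.ext
          rw [← hav2, ← hav2, hq]
        · exact Fin.ext h
      rw [h1]
    · obtain ⟨p, rfl, rfl⟩ := hsp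
      have h1 := (hearly p).1
      have h2 := (hlate _ ha y hy hay hsp').1
      omega
    · obtain ⟨q, hq, rfl⟩ := hsp'
      have h1 := (hearly q).1
      rw [hq] at h1
      have h2 := (hlate _ ha x hx hax hsp).1
      omega
    · rw [hcN a x ha hsp, hcN a y ha hsp'] at h
      exact hc2 ⟨a, ha⟩ x (hR'm ⟨a, ha⟩ x hx hax hsp) y (hR'm ⟨a, ha⟩ y hy hay hsp') h
  · -- distinct at `x`
    intro a ha b hb x hx hax hbx h
    by_cases hsp : sp a x <;> by_cases hsp' : sp b x
    · obtain ⟨p, rfl, rfl⟩ := hsp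
      obtain ⟨q, rfl, hq⟩ := hsp'
      rw [hxinj _ _ hq]
    · obtain ⟨p, rfl, rfl⟩ := hsp
      have h1 := (hearly p).1
      have h2 := (hlate _ hb _ hx hbx hsp').1
      omega
    · obtain ⟨q, rfl, rfl⟩ := hsp'
      have h1 := (hearly q).1
      have h2 := (hlate _ ha _ hx hax hsp).1
      omega
    · rw [hcN a x ha hsp, hcN b x hb hsp'] at h
      have h1 := hc3 ⟨a, ha⟩ ⟨b, hb⟩ x (hR'm ⟨a, ha⟩ x hx hax hsp) (hR'm ⟨b, hb⟩ x hx hbx hsp') h
      exact congrArg Subtype.val h1
  · -- symmetry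
    intro x y
    by_cases h : Dr x y
    · rw [hτD x y h, hτD y x ((hDr x y).1 h)]
    · rw [hτN x y h, hτN y x (fun h' => h ((hDr x y).2 h')), hμ0]
  · -- windows of the edges outside `A`
    intro x y hx hy hxy
    have hadj : Γ.Adj x y := ⟨hx, hy, hxy⟩
    have h1 := hf1 x
    have h2 := hμ1 x y hadj
    refine ⟨?_, ?_, ?_⟩
    · by_cases h : Dr x y
      · rw [hτD x y h]; omega
      · rw [hτN x y h]; omega
    · by_cases h : Dr x y
      · rw [hτD x y h]; omega
      · rw [hτN x y h]; omega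
    · by_cases hSx : S x <;> by_cases hSy : S y
      · obtain ⟨p, rfl⟩ := hSx
        obtain ⟨q, rfl⟩ := hSy
        have hpq : p ≠ q := by
          rintro rfl
          exact Γ.loopless.irrefl _ hadj
        exact absurd (Or.inr (Or.inl hadj)) (hx2 p q hpq)
      · rw [hf2 x hSx, hf3 y hSy]; omega
      · rw [hf3 x hSx, hf2 y hSy]; omega
      · rw [hf3 x hSx, hf3 y hSy]
        have := hg2 x y hadj
        omega
  · -- distinct
    intro x y z hx hy hz hxy hxz h
    have hadj : Γ.Adj x y := ⟨hx, hy, hxy⟩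
    have hadj' : Γ.Adj x z := ⟨hx, hz, hxz⟩
    have h1 := hμ1 x y hadj
    have h2 := hμ1 x z hadj'
    by_contra hne
    have h3 := hμ2 x y z hadj hadj' hne
    by_cases d1 : Dr x y <;> by_cases d2 : Dr x z
    · obtain ⟨p, p1, p2, p3⟩ := d1
      obtain ⟨q, q1, q2, q3⟩ := d2
      rcases p2 with rfl | rfl <;> rcases q2 with hq | rfl
      · have := hxinj _ _ hq
        subst this
        omega
      · have hpq : p ≠ q := by
          rintro rfl
          exact Γ.loopless.irrefl _ hadj'
        exact hx2 p q hpq (Or.inr (Or.inl hadj'))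
      · subst hq
        have hpq : q ≠ p := by
          rintro rfl
          exact Γ.loopless.irrefl _ hadj
        exact hx2 q p hpq (Or.inr (Or.inl hadj))
      · have hpq : p ≠ q := by
          rintro rfl
          exact hne rfl
        exact hx2 p q hpq (Or.inr (Or.inr ⟨x, hadj.symm, hadj'⟩))
    · rw [hτD x y d1, hτN x z d2] at h
      obtain ⟨p, -⟩ := d1
      have := hj1 _ (hav1 p)
      omega
    · rw [hτN x y d1, hτD x z d2] at h
      obtain ⟨p, -⟩ := d2
      have := hj1 _ (hav1 p)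
      omega
    · rw [hτN x y d1, hτN x z d2] at h
      omega
  · -- cross edges and edges outside `A`
    intro a ha x y hx hy hax hxy h
    have hadj : Γ.Adj x y := ⟨hx, hy, hxy⟩
    have h1 := hμ1 x y hadj
    by_cases d1 : Dr x y
    · rw [hτD x y d1] at h
      have := hcD a ha x hx hax
      omega
    · rw [hτN x y d1] at h
      by_cases hsp : sp a x
      · obtain ⟨p, rfl, rfl⟩ := hsp
        rw [hcS] at h
        exact d1 ⟨p, by omega, Or.inl rfl, h⟩
      · have := (hlate a ha x hx hax hsp).1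
        omega

end Pool.Agent.T9h80.HY
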