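import Mathlib

/-!
# A scheduling lemma

Jobs `i` with sets `R i` of tasks and start times `s i`: if the deadlines `s i + |R i|` are pairwise
different, the tasks can be given times such that every job does its tasks one after the other,
without a break, from its start time on, and no task is done by two jobs at the same time.
-/

set_option autoImplicit false

namespace Pool.Agent.T9h80.HY

open Finset

theorem sched {ι X : Type} [Fintype ι] [DecidableEq ι] [DecidableEq X] (n : ℕ) :
    ∀ (s : ι → ℕ) (R : ι → Finset X), ∑ i, (R i).card = n →
      (∀ i j, (R i).Nonempty → (R j).Nonempty → s i + (R i).card = s j + (R j).card → i = j) →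
      ∃ c : ι → X → ℕ, (∀ i, ∀ x ∈ R i, s i ≤ c i x ∧ c i x < s i + (R i).card) ∧
        (∀ i, ∀ x ∈ R i, ∀ y ∈ R i, c i x = c i y → x = y) ∧
        (∀ i j x, x ∈ R i → x ∈ R j → c i x = c j x → i = j) := by
  induction n using Nat.strong_induction_on with
  | _ n ih =>
    intro s R hsum hdl
    by_cases hne : ∃ i, (R i).Nonempty
    · -- the first time
      have hU : (univ.filter fun i => (R i).Nonempty).Nonempty := by
        obtain ⟨i, hi⟩ := hne
        exact ⟨i, by simp [hi]⟩
      obtain ⟨i₀, hi₀, hmin⟩ := exists_min_image _ s hU
      rw [mem_filter] at hi₀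
      set e := s i₀ with he
      let A : ι → Prop := fun i => (R i).Nonempty ∧ s i = e
      have hA0 : A i₀ := ⟨hi₀.2, rfl⟩
      have hge : ∀ i, (R i).Nonempty → ¬ A i → e + 1 ≤ s i := by
        intro i hi hA
        have h1 := hmin i (by simp [hi])
        have h2 : s i ≠ e := fun h => hA ⟨hi, h⟩
        omega
      -- Hall
      have hall : ∃ f : {i // A i} → X, Function.Injective f ∧ ∀ i, f i ∈ R i.1 := by
        rw [← Finset.all_card_le_biUnion_card_iff_exists_injective]
        intro S
        rcases S.eq_empty_or_nonempty with rfl | hS
        · simp
        obtain ⟨m, hm, hmax⟩ := exists_max_image S (fun i => (R i.1).card) hS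
        have h1 : S.card ≤ (Icc 1 (R m.1).card).card := by
          refine card_le_card_of_injOn (fun i => (R i.1).card) ?_ ?_
          · intro i hi
            simp only [coe_Icc, Set.mem_Icc]
            exact ⟨i.2.1.card_pos, hmax i hi⟩
          · intro i _ j _ hij
            apply Subtype.ext
            apply hdl i.1 j.1 i.2.1 j.2.1
            have h1 := i.2.2
            have h2 := j.2.2
            simp only at hij
            omega
        rw [Nat.card_Icc] at h1
        have h2 : (R m.1).card ≤ (S.biUnion fun i => R i.1).card :=
          card_le_card (subset_biUnion_of_mem (fun i : {i // A i} => R i.1) hm)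
        omega
      obtain ⟨f, hf, hfR⟩ := hall
      classical
      let R' : ι → Finset X := fun i => if h : A i then (R i).erase (f ⟨i, h⟩) else R i
      let s' : ι → ℕ := fun i => if A i then e + 1 else s i
      have hR'A : ∀ i (h : A i), R' i = (R i).erase (f ⟨i, h⟩) := fun i h => dif_pos h
      have hR'N : ∀ i, ¬ A i → R' i = R i := fun i h => dif_neg h
      have hsub : ∀ i, R' i ⊆ R i := by
        intro i
        by_cases h : A i
        · rw [hR'A i h]; exact erase_subset _ _
        · rw [hR'N i h]
      have hcardA : ∀ i (h : A i), (R' i).card + 1 = (R i).card := by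
        intro i h
        rw [hR'A i h]
        exact card_erase_add_one (hfR ⟨i, h⟩)
      have hdlA : ∀ i, (R' i).Nonempty → s' i + (R' i).card = s i + (R i).card := by
        intro i hi
        by_cases h : A i
        · have h1 := hcardA i h
          have h2 := h.2
          have h3 : s' i = e + 1 := if_pos h
          omega
        · rw [hR'N i h]
          have h3 : s' i = s i := if_neg h
          omega
      have hlt : ∑ i, (R' i).card < n := by
        rw [← hsum]
        refine sum_lt_sum (fun i _ => card_le_card (hsub i)) ⟨i₀, mem_univ _, ?_⟩
        have := hcardA i₀ hA0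
        omega
      obtain ⟨c', h1, h2, h3⟩ := ih _ hlt s' R' rfl (by
        intro i j hi hj hij
        rw [hdlA i hi, hdlA j hj] at hij
        exact hdl i j (hi.mono (hsub i)) (hj.mono (hsub j)) hij)
      let P : ι → X → Prop := fun i x => ∃ h : A i, x = f ⟨i, h⟩
      let c : ι → X → ℕ := fun i x => if P i x then e else c' i x
      have hcP : ∀ i x, P i x → c i x = e := fun i x h => if_pos h
      have hcN : ∀ i x, ¬ P i x → c i x = c' i x := fun i x h => if_neg h
      have hmem : ∀ i x, x ∈ R i → ¬ P i x → x ∈ R' i := by
        intro i x hx hP
        by_cases h : A i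
        · rw [hR'A i h, mem_erase]
          exact ⟨fun hxf => hP ⟨h, hxf⟩, hx⟩
        · rw [hR'N i h]; exact hx
      have hs'e : ∀ i, (R i).Nonempty → e + 1 ≤ s' i := by
        intro i hi
        by_cases h : A i
        · have h3 : s' i = e + 1 := if_pos h
          omega
        · have h3 : s' i = s i := if_neg h
          have := hge i hi h
          omega
      have hbig : ∀ i x, x ∈ R i → ¬ P i x → e + 1 ≤ c i x := by
        intro i x hx hP
        rw [hcN i x hP]
        exact (hs'e i ⟨x, hx⟩).trans (h1 i x (hmem i x hx hP)).1
      refine ⟨c, ?_, ?_, ?_⟩
      · intro i x hx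
        by_cases hP : P i x
        · rw [hcP i x hP]
          obtain ⟨hA, -⟩ := hP
          have h4 := hA.2
          have h5 := hA.1.card_pos
          omega
        · have h4 := hbig i x hx hP
          have h5 := h1 i x (hmem i x hx hP)
          have h6 := hdlA i ⟨x, hmem i x hx hP⟩
          rw [hcN i x hP]
          refine ⟨?_, by omega⟩
          by_cases h : A i
          · have := h.2
            have h7 := hs'e i ⟨x, hx⟩
            omega
          · have h7 : s' i = s i := if_neg h
            omega
      · intro i x hx y hy hxy
        by_cases hP : P i x <;> by_cases hQ : P i y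
        · obtain ⟨h4, h5⟩ := hP
          obtain ⟨h6, h7⟩ := hQ
          rw [h5, h7]
        · have := hbig i y hy hQ
          rw [hcP i x hP] at hxy
          omega
        · have := hbig i x hx hP
          rw [hcP i y hQ] at hxy
          omega
        · rw [hcN i x hP, hcN i y hQ] at hxy
          exact h2 i x (hmem i x hx hP) y (hmem i y hy hQ) hxy
      · intro i j x hx hx' hxy
        by_cases hP : P i x <;> by_cases hQ : P j x
        · obtain ⟨h4, h5⟩ := hP
          obtain ⟨h6, h7⟩ := hQ
          have h8 := hf (h5.symm.trans h7)
          exact congrArg Subtype.val h8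
        · have := hbig j x hx' hQ
          rw [hcP i x hP] at hxy
          omega
        · have := hbig i x hx hP
          rw [hcP j x hQ] at hxy
          omega
        · rw [hcN i x hP, hcN j x hQ] at hxy
          exact h3 i j x (hmem i x hx hP) (hmem j x hx' hQ) hxy
    · push Not at hne
      refine ⟨fun _ _ => 0, ?_, ?_, ?_⟩
      · intro i x hx
        rw [hne i] at hx
        simp at hx
      · intro i x hx
        rw [hne i] at hx
        simp at hx
      · intro i j x hx
        rw [hne i] at hx
        simp at hx

end Pool.Agent.T9h80.HY
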