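import Pool.Agent.T9h80.HY.Sched
import Pool.Agent.T9h45.HY.Prod2

/-!
# Upward labellings of split graphs
-/

set_option autoImplicit false

namespace Pool.Agent.T9h80.HY

open Finset Pool.Agent.T9h45.HY

theorem up_split {V : Type} [Fintype V] (G : SimpleGraph V) (A : Finset V) (D : ℕ)
    (hA : ∀ a ∈ A, A.card + {x | x ∉ A ∧ G.Adj a x}.ncard ≤ D + 1)
    (hB : ∀ x y z, x ∉ A → y ∉ A → z ∉ A → G.Adj x y → G.Adj x z → y = z)
    (hD : ∀ x y, x ∉ A → y ∉ A → G.Adj x y → 1 ≤ D) : Up G D := by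
  classical
  set k := A.card with hk
  -- numbering of `A`
  obtain ⟨j, hj1, hj2⟩ : ∃ j : V → ℕ, (∀ a ∈ A, j a < k) ∧ (∀ a ∈ A, ∀ b ∈ A, j a = j b → a = b) := by
    refine ⟨fun v => if h : v ∈ A then (A.equivFin ⟨v, h⟩ : ℕ) else 0, ?_, ?_⟩
    · intro a ha
      simp only [dif_pos ha]
      exact (A.equivFin ⟨a, ha⟩).2
    · intro a ha b hb h
      simp only [dif_pos ha, dif_pos hb] at h
      have h1 := A.equivFin.injective (Fin.ext h)
      exact congrArg Subtype.val h1
  -- the neighbours outside `A`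
  let R : {a // a ∈ A} → Finset V := fun a => univ.filter fun x => x ∉ A ∧ G.Adj a.1 x
  have hR : ∀ a : {a // a ∈ A}, k + (R a).card ≤ D + 1 := by
    intro a
    have h1 := hA a.1 a.2
    have h2 : {x | x ∉ A ∧ G.Adj a.1 x}.ncard = (R a).card := by
      rw [← Set.ncard_coe_finset]
      congr 1
      ext x
      simp [R]
    omega
  let s : {a // a ∈ A} → ℕ := fun a => j a.1 + (D + 1 - k) - (R a).card
  have hs : ∀ a : {a // a ∈ A}, s a + (R a).card = j a.1 + (D + 1 - k) := by
    intro a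
    have := hR a
    simp only [s]
    omega
  obtain ⟨c, hc1, hc2, hc3⟩ := sched _ s R rfl (by
    intro a b _ _ h
    rw [hs, hs] at h
    exact Subtype.ext (hj2 _ a.2 _ b.2 (by omega)))
  have hRm : ∀ (a : {a // a ∈ A}) x, x ∉ A → G.Adj a.1 x → x ∈ R a := by
    intro a x hx hax
    simp [R, hx, hax]
  -- bounds of the times
  have hcl : ∀ (a : {a // a ∈ A}) x, x ∉ A → G.Adj a.1 x → j a.1 ≤ c a x := by
    intro a x hx hax
    have h1 := (hc1 a x (hRm a x hx hax)).1
    have h2 := hs a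
    have h3 := hR a
    omega
  have hcu : ∀ (a : {a // a ∈ A}) x, x ∉ A → G.Adj a.1 x → c a x + k < j a.1 + D + 1 := by
    intro a x hx hax
    have h1 := (hc1 a x (hRm a x hx hax)).2
    have h2 := hs a
    have h3 := hR a
    have h4 : 0 < (R a).card := card_pos.2 ⟨x, hRm a x hx hax⟩
    omega
  -- the vertex of time zero
  let Z : V → Prop := fun x => ∃ a : {a // a ∈ A}, x ∉ A ∧ G.Adj a.1 x ∧ c a x = 0
  have hZ : ∀ x y, Z x → Z y → x = y := by
    rintro x y ⟨a, hx, hax, h1⟩ ⟨b, hy, hby, h2⟩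
    have h3 := hcl a x hx hax
    have h4 := hcl b y hy hby
    have h5 : a = b := Subtype.ext (hj2 _ a.2 _ b.2 (by omega))
    subst h5
    exact hc2 a x (hRm a x hx hax) y (hRm a y hy hby) (by omega)
  -- rank
  let ρ : V → ℕ := fun v => (Fintype.equivFin V v : ℕ)
  have hρ : ∀ x y, ρ x = ρ y → x = y := fun x y h => (Fintype.equivFin V).injective (Fin.ext h)
  let T : V → Prop := fun x => ¬ Z x ∧ ∃ y, y ∉ A ∧ G.Adj x y ∧ (Z y ∨ ρ x < ρ y)
  have hT : ∀ x y, x ∉ A → y ∉ A → G.Adj x y → (T x ↔ ¬ T y) := by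
    intro x y hx hy hxy
    have e1 : T x ↔ ¬ Z x ∧ (Z y ∨ ρ x < ρ y) := by
      constructor
      · rintro ⟨h1, y', hy', hxy', h2⟩
        rw [hB x y y' hx hy hy' hxy hxy']
        exact ⟨h1, h2⟩
      · rintro ⟨h1, h2⟩
        exact ⟨h1, y, hy, hxy, h2⟩
    have e2 : T y ↔ ¬ Z y ∧ (Z x ∨ ρ y < ρ x) := by
      constructor
      · rintro ⟨h1, x', hx', hyx', h2⟩
        rw [hB y x x' hy hx hx' hxy.symm hyx']
        exact ⟨h1, h2⟩
      · rintro ⟨h1, h2⟩
        exact ⟨h1, x, hx, hxy.symm, h2⟩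
    rw [e1, e2]
    have h3 : ρ x ≠ ρ y := fun h => G.ne_of_adj hxy (hρ x y h)
    have h4 : ¬ (Z x ∧ Z y) := fun h => G.ne_of_adj hxy (hZ x y h.1 h.2)
    by_cases zx : Z x <;> by_cases zy : Z y
    · exact absurd ⟨zx, zy⟩ h4
    · simp [zx, zy]
    · simp [zx, zy]
    · simp only [zx, zy, not_false_eq_true, true_and, false_or, not_lt]
      omega
  let cc : V → V → ℕ := fun a x => if h : a ∈ A then c ⟨a, h⟩ x else 0
  have hcc : ∀ a x (h : a ∈ A), cc a x = c ⟨a, h⟩ x := fun a x h => dif_pos h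
  let F : V → ℕ := fun v => if v ∈ A then j v else k + (if T v then 1 else 0)
  let E : V → V → ℕ := fun u v =>
    if u ∈ A then (if v ∈ A then j u + j v else k + cc u v)
    else (if v ∈ A then k + cc v u else k + D)
  have F1 : ∀ v, v ∈ A → F v = j v := fun v h => if_pos h
  have F2 : ∀ v, v ∉ A → F v = k + (if T v then 1 else 0) := fun v h => if_neg h
  have E1 : ∀ u v, u ∈ A → v ∈ A → E u v = j u + j v := fun u v hu hv => by
    simp only [E, if_pos hu, if_pos hv]
  have E2 : ∀ u v, u ∈ A → v ∉ A → E u v = k + cc u v := fun u v hu hv => by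
    simp only [E, if_pos hu, if_neg hv]
  have E3 : ∀ u v, u ∉ A → v ∈ A → E u v = k + cc v u := fun u v hu hv => by
    simp only [E, if_neg hu, if_pos hv]
  have E4 : ∀ u v, u ∉ A → v ∉ A → E u v = k + D := fun u v hu hv => by
    simp only [E, if_neg hu, if_neg hv]
  have Esymm : ∀ u v, E u v = E v u := by
    intro u v
    by_cases hu : u ∈ A <;> by_cases hv : v ∈ A
    · rw [E1 u v hu hv, E1 v u hv hu, add_comm]
    · rw [E2 u v hu hv, E3 v u hv hu]
    · rw [E3 u v hu hv, E2 v u hv hu]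
    · rw [E4 u v hu hv, E4 v u hv hu]
  -- bounds
  have hwin : ∀ u v, G.Adj u v → F u ≠ F v ∧ F u ≤ E u v ∧ E u v ≤ F u + D := by
    intro u v huv
    by_cases hu : u ∈ A <;> by_cases hv : v ∈ A
    · rw [E1 u v hu hv, F1 u hu, F1 v hv]
      have h1 := hj1 v hv
      have h2 := hR ⟨u, hu⟩
      refine ⟨fun h => G.ne_of_adj huv (hj2 u hu v hv h), by omega, by omega⟩
    · rw [E2 u v hu hv, F1 u hu, F2 v hv, hcc u v hu]
      have h1 := hj1 u hu
      have h2 := hcl ⟨u, hu⟩ v hv huv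
      have h3 := hcu ⟨u, hu⟩ v hv huv
      simp only at h2 h3
      refine ⟨?_, by omega, by omega⟩
      split_ifs <;> omega
    · rw [E3 u v hu hv, F1 v hv, F2 u hu, hcc v u hv]
      have h1 := hj1 v hv
      have h2 := hcl ⟨v, hv⟩ u hu huv.symm
      have h3 := hcu ⟨v, hv⟩ u hu huv.symm
      simp only at h2 h3
      refine ⟨?_, ?_, ?_⟩
      · split_ifs <;> omega
      · split_ifs with hTu
        · have h4 : c ⟨v, hv⟩ u ≠ 0 := fun h => hTu.1 ⟨⟨v, hv⟩, hu, huv.symm, h⟩
          omega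
        · omega
      · split_ifs <;> omega
    · rw [E4 u v hu hv, F2 u hu, F2 v hv]
      have h1 := hD u v hu hv huv
      have h2 := hT u v hu hv huv
      refine ⟨?_, ?_, ?_⟩
      · by_cases h3 : T u
        · have h4 := h2.1 h3
          rw [if_pos h3, if_neg h4]
          omega
        · have h4 : T v := by
            by_contra h5
            exact h3 (h2.2 h5)
          rw [if_neg h3, if_pos h4]
          omega
      · split_ifs <;> omega
      · split_ifs <;> omega
  have hinj : ∀ u v w, G.Adj u v → G.Adj u w → E u v = E u w → v = w := by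
    intro u v w huv huw h
    by_cases hu : u ∈ A
    · have hju := hj1 u hu
      by_cases hv : v ∈ A <;> by_cases hw : w ∈ A
      · rw [E1 u v hu hv, E1 u w hu hw] at h
        exact hj2 v hv w hw (by omega)
      · rw [E1 u v hu hv, E2 u w hu hw, hcc u w hu] at h
        have h1 := hj1 v hv
        have h2 := hcl ⟨u, hu⟩ w hw huw
        simp only at h2
        omega
      · rw [E2 u v hu hv, E1 u w hu hw, hcc u v hu] at h
        have h1 := hj1 w hw
        have h2 := hcl ⟨u, hu⟩ v hv huv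
        simp only at h2
        omega
      · rw [E2 u v hu hv, E2 u w hu hw, hcc u v hu, hcc u w hu] at h
        exact hc2 ⟨u, hu⟩ v (hRm ⟨u, hu⟩ v hv huv) w (hRm ⟨u, hu⟩ w hw huw) (by omega)
    · by_cases hv : v ∈ A <;> by_cases hw : w ∈ A
      · rw [E3 u v hu hv, E3 u w hu hw, hcc v u hv, hcc w u hw] at h
        have h1 := hc3 ⟨v, hv⟩ ⟨w, hw⟩ u (hRm ⟨v, hv⟩ u hu huv.symm) (hRm ⟨w, hw⟩ u hu huw.symm)
          (by omega)
        exact congrArg Subtype.val h1
      · rw [E3 u v hu hv, E4 u w hu hw, hcc v u hv] at h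
        have h1 := hcu ⟨v, hv⟩ u hu huv.symm
        have h2 := hj1 v hv
        simp only at h1
        omega
      · rw [E4 u v hu hv, E3 u w hu hw, hcc w u hw] at h
        have h1 := hcu ⟨w, hw⟩ u hu huw.symm
        have h2 := hj1 w hw
        simp only at h1
        omega
      · exact hB u v w hu hv hw huv huw
  refine ⟨fun v => (F v : ℤ), fun u v => (E u v : ℤ), fun u v => by
    beta_reduce; rw [Esymm], ?_, ?_⟩
  · intro u v huv
    obtain ⟨h1, h2, h3⟩ := hwin u v huv
    beta_reduce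
    exact ⟨by exact_mod_cast h1, by exact_mod_cast h2, by exact_mod_cast h3⟩
  · intro u v w huv huw h
    beta_reduce at h
    exact hinj u v w huv huw (by exact_mod_cast h)

end Pool.Agent.T9h80.HY
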